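import Mathlib

set_option autoImplicit false

/-!
# A critical subgroup (after Thompson) of a normal 2-subgroup
-/

namespace Pool.Agent.Helper73.Th

open Subgroup

variable {G : Type} [Group G]

/-- Elements of `Q` centralising `N` which are central of order two modulo `N`. -/
def critSub (Q N : Subgroup G) (hN : N.Normal) : Subgroup G where
  carrier := {x | x ∈ Q ∧ (∀ n ∈ N, x * n = n * x) ∧ x ^ 2 ∈ N ∧
    ∀ y ∈ Q, x * y * x⁻¹ * y⁻¹ ∈ N}
  mul_mem' := by
    rintro x y ⟨hx, hxc, hx2, hxq⟩ ⟨hy, hyc, hy2, hyq⟩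
    refine ⟨Q.mul_mem hx hy, fun n hn => ?_, ?_, fun z hz => ?_⟩
    · rw [mul_assoc, hyc n hn, ← mul_assoc, hxc n hn, mul_assoc]
    · have h1 : y * x * y⁻¹ * x⁻¹ ∈ N := hyq x hx
      have h2 : (x * y) ^ 2 = (y * x * y⁻¹ * x⁻¹) * (x ^ 2 * y ^ 2) := by
        have h3 := hxc _ h1
        calc (x * y) ^ 2 = x * (y * x * y⁻¹ * x⁻¹) * (x * y * y) := by
              simp [pow_two, mul_assoc]
          _ = (y * x * y⁻¹ * x⁻¹) * x * (x * y * y) := by rw [h3]
          _ = (y * x * y⁻¹ * x⁻¹) * (x ^ 2 * y ^ 2) := by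
              simp only [pow_two, mul_assoc]
      rw [h2]
      exact N.mul_mem h1 (N.mul_mem hx2 hy2)
    · have h1 : x * y * z * (x * y)⁻¹ * z⁻¹ =
          x * (y * z * y⁻¹ * z⁻¹) * x⁻¹ * (x * z * x⁻¹ * z⁻¹) := by group
      rw [h1]
      exact N.mul_mem (hN.conj_mem _ (hyq z hz) x) (hxq z hz)
  one_mem' := ⟨Q.one_mem, fun n _ => by simp, by simp, fun y _ => by simp⟩
  inv_mem' := by
    rintro x ⟨hx, hxc, hx2, hxq⟩
    refine ⟨Q.inv_mem hx, fun n hn => ?_, ?_, fun z hz => ?_⟩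
    · have := hxc n hn
      rw [inv_mul_eq_iff_eq_mul, ← mul_assoc, this, mul_assoc, mul_inv_cancel, mul_one]
    · rw [inv_pow]; exact N.inv_mem hx2
    · have h1 : x⁻¹ * z * x⁻¹⁻¹ * z⁻¹ = x⁻¹ * (x * z * x⁻¹ * z⁻¹)⁻¹ * x⁻¹⁻¹ := by group
      rw [h1]
      exact hN.conj_mem _ (N.inv_mem (hxq z hz)) x⁻¹

theorem critSub_normal (Q N : Subgroup G) (hN : N.Normal) (hQ : Q.Normal) :
    (critSub Q N hN).Normal := by
  constructor
  rintro x ⟨hx, hxc, hx2, hxq⟩ g
  refine ⟨hQ.conj_mem x hx g, fun n hn => ?_, ?_, fun z hz => ?_⟩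
  · have h1 := hxc (g⁻¹ * n * g) (by simpa using hN.conj_mem n hn g⁻¹)
    calc g * x * g⁻¹ * n = g * (x * (g⁻¹ * n * g)) * g⁻¹ := by group
      _ = g * ((g⁻¹ * n * g) * x) * g⁻¹ := by rw [h1]
      _ = n * (g * x * g⁻¹) := by group
  · have h1 : (g * x * g⁻¹) ^ 2 = g * x ^ 2 * g⁻¹ := by
      simp [pow_two, mul_assoc]
    rw [h1]
    exact hN.conj_mem _ hx2 g
  · have h1 := hxq (g⁻¹ * z * g) (by simpa using hQ.conj_mem z hz g⁻¹)
    have h2 : g * x * g⁻¹ * z * (g * x * g⁻¹)⁻¹ * z⁻¹ =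
        g * (x * (g⁻¹ * z * g) * x⁻¹ * (g⁻¹ * z * g)⁻¹) * g⁻¹ := by group
    rw [h2]
    exact hN.conj_mem _ h1 g

/-- A nontrivial normal subgroup of `G` inside a 2-group `Q` (normal) modulo `N` contains an
element that is central of order two modulo `N`. -/
theorem exists_central_mod [Finite G] (Q N C : Subgroup G) (hN : N.Normal)
    (hC : C.Normal) (hQ : IsPGroup 2 Q) (hCQ : C ≤ Q) (hNC : ¬ C ≤ N) :
    ∃ x ∈ C, x ∉ N ∧ x ^ 2 ∈ N ∧ ∀ y ∈ Q, x * y * x⁻¹ * y⁻¹ ∈ N := by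
  have : Fact (Nat.Prime 2) := ⟨Nat.prime_two⟩
  let π : G →* G ⧸ N := QuotientGroup.mk' N
  have hπ : ∀ x : G, π x = 1 ↔ x ∈ N := fun x => QuotientGroup.eq_one_iff x
  have hCn : (C.map π).Normal := hC.map π (QuotientGroup.mk'_surjective N)
  let act : MulAction (Q.map π) (C.map π) :=
    MulAction.compHom _ ((MulAut.conjNormal (H := C.map π)).comp (Q.map π).subtype)
  have hact : ∀ (g : Q.map π) (c : C.map π), ((g • c : C.map π) : G ⧸ N) = g * c * (g : G ⧸ N)⁻¹ :=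
    fun g c => rfl
  have hQ' : IsPGroup 2 (Q.map π) := hQ.map π
  have hC' : IsPGroup 2 (C.map π) := hQ'.to_le (Subgroup.map_mono hCQ)
  have hne : Nontrivial (C.map π) := by
    rw [Subgroup.nontrivial_iff_ne_bot]
    intro h
    apply hNC
    intro x hx
    have : π x ∈ C.map π := ⟨x, hx, rfl⟩
    rw [h, Subgroup.mem_bot, hπ] at this
    exact this
  have hdvd : 2 ∣ Nat.card (C.map π) := by
    obtain ⟨n, hn, hcard⟩ := (hC'.nontrivial_iff_card).mp hne
    rw [hcard]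
    exact dvd_pow_self 2 hn.ne'
  have h1 : (1 : C.map π) ∈ MulAction.fixedPoints (Q.map π) (C.map π) := by
    intro g
    apply Subtype.ext
    rw [hact]
    simp
  obtain ⟨b, hb, hb1⟩ := hQ'.exists_fixed_point_of_prime_dvd_card_of_fixed_point _ hdvd h1
  -- a power of `b` has order two
  have hord := (IsPGroup.iff_orderOf.mp hC') b
  obtain ⟨k, hk⟩ := hord
  have hk0 : k ≠ 0 := by
    rintro rfl
    rw [pow_zero, orderOf_eq_one_iff] at hk
    exact hb1 hk.symm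
  obtain ⟨l, rfl⟩ := Nat.exists_eq_succ_of_ne_zero hk0
  obtain ⟨x, hx, hxb⟩ := b.2
  have hxmem : ∀ n : ℕ, x ^ n ∈ N ↔ b ^ n = 1 := by
    intro n
    rw [← hπ, map_pow, hxb]
    constructor
    · intro h; exact Subtype.ext h
    · intro h
      have := congrArg Subtype.val h
      simpa using this
  refine ⟨x ^ 2 ^ l, C.pow_mem hx _, ?_, ?_, ?_⟩
  · rw [hxmem]
    intro h
    have := orderOf_dvd_of_pow_eq_one h
    rw [hk] at this
    have h2 := Nat.le_of_dvd (by positivity) this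
    have h3 : 2 ^ l < 2 ^ (l.succ) := Nat.pow_lt_pow_right (by norm_num) (Nat.lt_succ_self l)
    omega
  · rw [← pow_mul, ← pow_succ, hxmem, ← Nat.succ_eq_add_one, ← hk]
    exact pow_orderOf_eq_one b
  · intro y hy
    rw [← hπ]
    have h2 := hb ⟨π y, ⟨y, hy, rfl⟩⟩
    have h3 := congrArg Subtype.val h2
    rw [hact] at h3
    simp only at h3
    rw [← hxb] at h3
    have h4 : Commute (π y) (π x) := by
      have : π y * π x * (π y)⁻¹ = π x := h3
      rw [mul_inv_eq_iff_eq_mul] at this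
      exact this
    have h5 : Commute (π y) (π x ^ 2 ^ l) := h4.pow_right _
    rw [map_mul, map_mul, map_mul, map_inv, map_inv, map_pow, ← h5.eq]
    group

theorem exists_critical [Finite G] (Q : Subgroup G) (hQn : Q.Normal) (hQ : IsPGroup 2 Q) :
    ∃ N F : Subgroup G, N.Normal ∧ F.Normal ∧ N ≤ F ∧ F ≤ Q ∧
      (∀ n ∈ N, ∀ f ∈ F, n * f = f * n) ∧ (∀ x ∈ F, x ^ 2 ∈ N) ∧
      (∀ x ∈ F, ∀ y ∈ Q, x * y * x⁻¹ * y⁻¹ ∈ N) ∧
      (∀ x ∈ Q, (∀ f ∈ F, x * f = f * x) → x ∈ N) := by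
  classical
  -- a maximal abelian normal subgroup
  let S : Set (Subgroup G) := {N | N.Normal ∧ N ≤ Q ∧ ∀ a ∈ N, ∀ b ∈ N, a * b = b * a}
  have hSfin : S.Finite := Set.toFinite S
  have hSne : S.Nonempty := ⟨⊥, inferInstance, bot_le, by
    intro a ha b hb
    rw [Subgroup.mem_bot] at ha hb
    rw [ha, hb]⟩
  obtain ⟨N, hNS, hNmax⟩ := hSfin.exists_maximal hSne
  obtain ⟨hNn, hNQ, hNc⟩ := hNS
  let F := critSub Q N hNn
  have hNF : N ≤ F := by
    intro x hx
    refine ⟨hNQ hx, fun n hn => hNc x hx n hn, ?_, fun y hy => ?_⟩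
    · exact N.pow_mem hx 2
    · have := N.mul_mem hx (hNn.conj_mem _ (N.inv_mem hx) y)
      simpa [mul_assoc] using this
  have hFc : ∀ n ∈ N, ∀ f ∈ F, n * f = f * n := fun n hn f hf => (hf.2.1 n hn).symm
  have hFn : F.Normal := critSub_normal Q N hNn hQn
  have hFQ : F ≤ Q := fun x hx => hx.1
  refine ⟨N, F, hNn, hFn, hNF, hFQ, hFc, fun x hx => hx.2.2.1, fun x hx => hx.2.2.2, ?_⟩
  -- the centre of `F` is `N`
  have hZ : ∀ x ∈ F, (∀ f ∈ F, x * f = f * x) → x ∈ N := by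
    let Z : Subgroup G := F ⊓ Subgroup.centralizer (F : Set G)
    have hZn : Z.Normal := by
      constructor
      rintro x hx0 g
      obtain ⟨hx, hxc⟩ := Subgroup.mem_inf.mp hx0
      rw [Subgroup.mem_centralizer_iff] at hxc
      refine Subgroup.mem_inf.mpr ⟨hFn.conj_mem x hx g, Subgroup.mem_centralizer_iff.mpr ?_⟩
      intro f hf
      have h1 := hxc (g⁻¹ * f * g) (by
        have := hFn.conj_mem f hf g⁻¹
        simpa using this)
      calc f * (g * x * g⁻¹) = g * ((g⁻¹ * f * g) * x) * g⁻¹ := by group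
        _ = g * (x * (g⁻¹ * f * g)) * g⁻¹ := by rw [h1]
        _ = g * x * g⁻¹ * f := by group
    have hZS : Z ∈ S := by
      refine ⟨hZn, fun x hx => hFQ hx.1, ?_⟩
      intro a ha b hb
      have hac := Subgroup.mem_centralizer_iff.mp (Subgroup.mem_inf.mp ha).2
      exact (hac b (Subgroup.mem_inf.mp hb).1).symm
    have hNZ : N ≤ Z := by
      intro x hx
      refine Subgroup.mem_inf.mpr ⟨hNF hx, Subgroup.mem_centralizer_iff.mpr ?_⟩
      intro f hf
      exact (hFc x hx f hf).symm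
    have hZN : Z ≤ N := hNmax hZS hNZ
    intro x hx hxc
    apply hZN
    refine Subgroup.mem_inf.mpr ⟨hx, Subgroup.mem_centralizer_iff.mpr ?_⟩
    intro f hf
    exact (hxc f hf).symm
  by_contra hcon
  push Not at hcon
  obtain ⟨x₀, hx₀Q, hx₀c, hx₀N⟩ := hcon
  let C : Subgroup G := Q ⊓ Subgroup.centralizer (F : Set G)
  have hCn : C.Normal := by
    constructor
    rintro x hx0 g
    obtain ⟨hx, hxc⟩ := Subgroup.mem_inf.mp hx0
    rw [Subgroup.mem_centralizer_iff] at hxc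
    refine Subgroup.mem_inf.mpr ⟨hQn.conj_mem x hx g, Subgroup.mem_centralizer_iff.mpr ?_⟩
    intro f hf
    have h1 := hxc (g⁻¹ * f * g) (by
      have := hFn.conj_mem f hf g⁻¹
      simpa using this)
    calc f * (g * x * g⁻¹) = g * ((g⁻¹ * f * g) * x) * g⁻¹ := by group
      _ = g * (x * (g⁻¹ * f * g)) * g⁻¹ := by rw [h1]
      _ = g * x * g⁻¹ * f := by group
  have hCN : ¬ C ≤ N := by
    intro h
    apply hx₀N
    apply h
    refine Subgroup.mem_inf.mpr ⟨hx₀Q, Subgroup.mem_centralizer_iff.mpr ?_⟩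
    intro f hf
    exact (hx₀c f hf).symm
  obtain ⟨x, hxC, hxN, hx2, hxq⟩ := exists_central_mod Q N C hNn hCn hQ inf_le_left hCN
  have hxc : ∀ f ∈ F, x * f = f * x := by
    intro f hf
    have := Subgroup.mem_centralizer_iff.mp (Subgroup.mem_inf.mp hxC).2
    exact (this f hf).symm
  apply hxN
  exact hZ x ⟨(Subgroup.mem_inf.mp hxC).1, fun n hn => hxc n (hNF hn), hx2, hxq⟩ hxc

end Pool.Agent.Helper73.Th
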